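import Pool.Agent.LqLow.Both

open Finset Filter Topology Pool.Agent.LqFlat Pool.Agent.LqLow

namespace Pool.Agent.Results.MP_845cb7_nt.BothHalves

/-- **The Applegate–Lagarias question in full: `N_k^- = (4/3)^{k + o(k)}` and
`N_k^+ = (4/3)^{k + o(k)}`.**

`tm` is the `3x+1` map, `Nstar k a = #{n ≥ 1 : n ≢ 0 (mod 3), T^{(k)}(n) = a}`,
`Nall k a = #{n ≥ 1 : T^{(k)}(n) = a}`, `classes k` are the representatives `a < 3^{k+1}` of the
classes prime to `3`, `Nminus k` and `Nplus k` are the minimum and the maximum of `Nstar k a` over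
`classes k`. The third assertion is the uniform form: for all large `k` and all `a` prime to `3`,
`(4/3)^{(1-ε)k} ≤ N^*(k,a) ≤ N_k(a) ≤ (4/3)^{(1+ε)k}`, where `N_k(a)` is the unpruned count. -/
theorem result :
    Tendsto (fun k : ℕ => Real.log (Nminus k) / k) atTop (𝓝 (Real.log (4 / 3))) ∧
    Tendsto (fun k : ℕ => Real.log (Nplus k) / k) atTop (𝓝 (Real.log (4 / 3))) ∧
    (∀ ε : ℝ, 0 < ε → ∃ K : ℕ, ∀ k : ℕ, K ≤ k → ∀ a : ℕ, a % 3 ≠ 0 →
      (4 / 3 : ℝ) ^ ((1 - ε) * k) ≤ Nstar k a ∧ Nstar k a ≤ Nall k a ∧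
      {n : ℕ | 1 ≤ n ∧ tm^[k] n = a}.Finite ∧ (Nall k a : ℝ) ≤ (4 / 3 : ℝ) ^ ((1 + ε) * k)) := by
  refine ⟨minus_limit, main_limit, fun ε hε => ?_⟩
  obtain ⟨K, hK⟩ := upper hε
  obtain ⟨K', hK'⟩ := Nstar_lower hε
  refine ⟨max K K', fun k hk a ha => ?_⟩
  have hfin : {n : ℕ | 1 ≤ n ∧ tm^[k] n = a}.Finite := (leaves_finite k a).subset fun n hn => hn.2
  refine ⟨hK' k ((le_max_right _ _).trans hk) a ha, ?_, hfin,
    (Nall_le k a).trans (hK k ((le_max_left _ _).trans hk) a)⟩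
  unfold Nstar Nall
  exact Set.ncard_le_ncard (fun n hn => ⟨hn.1, hn.2.2⟩) hfin

end Pool.Agent.Results.MP_845cb7_nt.BothHalves
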